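import Mathlib

open Filter Topology Matrix

namespace Pool.Agent.Results.MP_313e16_pr.NotMonotone

set_option linter.unusedSectionVars false

variable {N : ℕ} [NeZero N]

/-- `m_i(x) = 2 x_{i-1} + x_{i+1}` (cyclic indices). -/
def nb (x : Fin N → Bool) (i : Fin N) : Fin 4 :=
  if x (i - 1) then (if x (i + 1) then 3 else 2) else (if x (i + 1) then 1 else 0)

/-- The configuration `x` with coordinate `i` flipped. -/
def flip (x : Fin N → Bool) (i : Fin N) : Fin N → Bool := Function.update x i (!x i)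

/-- The probability that the coordinate `i` changes when the player `i` plays:
`p_{m_i(x)}` if `x_i = 0` and `1 - p_{m_i(x)}` if `x_i = 1`. -/
def flipProb (p : Fin 4 → ℝ) (x : Fin N → Bool) (i : Fin N) : ℝ :=
  if x i then 1 - p (nb x i) else p (nb x i)

/-- The transition matrix of the chain: `P(x, x^i) = flipProb p x i / N`, the remaining mass is
on the diagonal. -/
noncomputable def P (p : Fin 4 → ℝ) : Matrix (Fin N → Bool) (Fin N → Bool) ℝ := fun x y =>
  if y = x then 1 - (N : ℝ)⁻¹ * ∑ i, flipProb p x i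
  else (N : ℝ)⁻¹ * ∑ i, if y = flip x i then flipProb p x i else 0

/-- Probability vectors on `{0,1}^N`. -/
def IsDist (ν : (Fin N → Bool) → ℝ) : Prop := (∀ x, 0 ≤ ν x) ∧ ∑ x, ν x = 1

/-- The chain with parameters `p` is ergodic with stationary distribution `π`: `π` is its unique
stationary distribution, and it converges to `π` from every initial distribution. -/
def ErgodicWith (p : Fin 4 → ℝ) (π : (Fin N → Bool) → ℝ) : Prop :=
  IsDist π ∧ π ᵥ* P p = π ∧ (∀ π', IsDist π' → π' ᵥ* P p = π' → π' = π) ∧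
    ∀ ν, IsDist ν → ∀ x, Tendsto (fun n : ℕ => (ν ᵥ* (P p) ^ n) x) atTop (𝓝 (π x))

/-- The mean profit `μ^N = N⁻¹ ∑_x π(x) ∑_i (p_{m_i(x)} - q_{m_i(x)})`. -/
noncomputable def meanProfit (p : Fin 4 → ℝ) (π : (Fin N → Bool) → ℝ) : ℝ :=
  (N : ℝ)⁻¹ * ∑ x, π x * ∑ i, (p (nb x i) - (1 - p (nb x i)))

/-! ### General facts -/

theorem flip_ne (x : Fin N → Bool) (i : Fin N) : flip x i ≠ x := by
  intro h
  have := congrFun h i
  simp [flip] at this

theorem flip_flip (x : Fin N → Bool) (i : Fin N) : flip (flip x i) i = x := by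
  funext j
  by_cases h : j = i
  · subst h; simp [flip]
  · simp [flip, Function.update_of_ne h]

theorem flip_inj (x : Fin N → Bool) {i j : Fin N} (h : flip x i = flip x j) : i = j := by
  by_contra hne
  have := congrFun h i
  simp [flip, Function.update_of_ne hne] at this

theorem flipProb_nonneg {p : Fin 4 → ℝ} (hp : ∀ m, 0 ≤ p m ∧ p m ≤ 1) (x : Fin N → Bool)
    (i : Fin N) : 0 ≤ flipProb p x i := by
  unfold flipProb
  split_ifs
  · linarith [(hp (nb x i)).2]
  · exact (hp _).1

theorem flipProb_le_one {p : Fin 4 → ℝ} (hp : ∀ m, 0 ≤ p m ∧ p m ≤ 1) (x : Fin N → Bool)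
    (i : Fin N) : flipProb p x i ≤ 1 := by
  unfold flipProb
  split_ifs
  · linarith [(hp (nb x i)).1]
  · exact (hp _).2

theorem cardPos : (0 : ℝ) < (N : ℝ) := by exact_mod_cast Nat.pos_of_ne_zero (NeZero.ne N)

theorem sum_flipProb_le {p : Fin 4 → ℝ} (hp : ∀ m, 0 ≤ p m ∧ p m ≤ 1) (x : Fin N → Bool) :
    (N : ℝ)⁻¹ * ∑ i, flipProb p x i ≤ 1 := by
  have h : ∑ i, flipProb p x i ≤ N := by
    calc ∑ i, flipProb p x i ≤ ∑ _i : Fin N, (1 : ℝ) :=
          Finset.sum_le_sum fun i _ => flipProb_le_one hp x i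
      _ = N := by simp
  rw [inv_mul_le_iff₀ cardPos]
  simpa using h

theorem P_nonneg {p : Fin 4 → ℝ} (hp : ∀ m, 0 ≤ p m ∧ p m ≤ 1) (x y : Fin N → Bool) :
    0 ≤ P p x y := by
  unfold P
  split_ifs
  · linarith [sum_flipProb_le hp x]
  · apply mul_nonneg (inv_nonneg.mpr cardPos.le)
    apply Finset.sum_nonneg
    intro i _
    split_ifs
    · exact flipProb_nonneg hp x i
    · exact le_rfl

/-- Rewriting of the transition matrix. -/
theorem P_apply (p : Fin 4 → ℝ) (x y : Fin N → Bool) :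
    P p x y = (if y = x then 1 - (N : ℝ)⁻¹ * ∑ i, flipProb p x i else 0) +
      (N : ℝ)⁻¹ * ∑ i, if y = flip x i then flipProb p x i else 0 := by
  unfold P
  split_ifs with h
  · subst h
    have : ∑ i, (if y = flip y i then flipProb p y i else 0) = 0 := by
      apply Finset.sum_eq_zero
      intro i _
      rw [if_neg (flip_ne y i).symm]
    rw [this]
    ring
  · ring

theorem P_row (p : Fin 4 → ℝ) (x : Fin N → Bool) : ∑ y, P p x y = 1 := by
  simp only [P_apply, Finset.sum_add_distrib, ← Finset.mul_sum]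
  rw [Finset.sum_comm]
  simp

theorem vecMul_P (p : Fin 4 → ℝ) (π : (Fin N → Bool) → ℝ) (y : Fin N → Bool) :
    (π ᵥ* P p) y = π y * (1 - (N : ℝ)⁻¹ * ∑ i, flipProb p y i) +
      (N : ℝ)⁻¹ * ∑ i, π (flip y i) * flipProb p (flip y i) i := by
  simp only [Matrix.vecMul, dotProduct, P_apply, mul_add, Finset.sum_add_distrib]
  congr 1
  · rw [Finset.sum_eq_single y]
    · simp
    · intro b _ hb
      rw [if_neg (Ne.symm hb)]; simp
    · simp
  · have : ∀ x, π x * ((N : ℝ)⁻¹ * ∑ i, (if y = flip x i then flipProb p x i else 0)) =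
        (N : ℝ)⁻¹ * ∑ i, (if y = flip x i then π x * flipProb p x i else 0) := by
      intro x
      rw [mul_left_comm, Finset.mul_sum]
      congr 1
      apply Finset.sum_congr rfl
      intro i _
      split_ifs <;> simp
    simp only [this]
    rw [← Finset.mul_sum, Finset.sum_comm]
    congr 1
    apply Finset.sum_congr rfl
    intro i _
    rw [Finset.sum_eq_single (flip y i)]
    · rw [if_pos (flip_flip y i).symm]
    · intro b _ hb
      rw [if_neg]
      intro h
      apply hb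
      rw [h, flip_flip]
    · simp

/-- Global balance implies stationarity. -/
theorem stationary_of_balance {p : Fin 4 → ℝ} {π : (Fin N → Bool) → ℝ}
    (h : ∀ y, ∑ i, π (flip y i) * flipProb p (flip y i) i = π y * ∑ i, flipProb p y i) :
    π ᵥ* P p = π := by
  funext y
  rw [vecMul_P, h]
  ring

/-! ### Convergence -/

section Doeblin

variable {S : Type*} [Fintype S] [DecidableEq S]

theorem l1_vecMul_le {Q : Matrix S S ℝ} (h0 : ∀ x y, 0 ≤ Q x y) (h1 : ∀ x, ∑ y, Q x y ≤ 1)
    (v : S → ℝ) : ∑ y, |(v ᵥ* Q) y| ≤ ∑ x, |v x| := by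
  calc ∑ y, |(v ᵥ* Q) y| ≤ ∑ y, ∑ x, |v x| * Q x y := by
        apply Finset.sum_le_sum
        intro y _
        calc |(v ᵥ* Q) y| = |∑ x, v x * Q x y| := rfl
          _ ≤ ∑ x, |v x * Q x y| := Finset.abs_sum_le_sum_abs _ _
          _ = ∑ x, |v x| * Q x y := by
              apply Finset.sum_congr rfl
              intro x _
              rw [abs_mul, abs_of_nonneg (h0 x y)]
    _ = ∑ x, |v x| * ∑ y, Q x y := by
        rw [Finset.sum_comm]
        simp only [Finset.mul_sum]
    _ ≤ ∑ x, |v x| := by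
        apply Finset.sum_le_sum
        intro x _
        calc |v x| * ∑ y, Q x y ≤ |v x| * 1 := mul_le_mul_of_nonneg_left (h1 x) (abs_nonneg _)
          _ = |v x| := mul_one _

theorem pow_nonneg' {Q : Matrix S S ℝ} (h0 : ∀ x y, 0 ≤ Q x y) (n : ℕ) :
    ∀ x y, 0 ≤ (Q ^ n) x y := by
  induction n with
  | zero => intro x y; simp only [pow_zero, Matrix.one_apply]; split_ifs <;> norm_num
  | succ n ih =>
    intro x y
    rw [pow_succ, Matrix.mul_apply]
    exact Finset.sum_nonneg fun z _ => mul_nonneg (ih x z) (h0 z y)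

theorem pow_row {Q : Matrix S S ℝ} (h1 : ∀ x, ∑ y, Q x y = 1) (n : ℕ) :
    ∀ x, ∑ y, (Q ^ n) x y = 1 := by
  induction n with
  | zero => intro x; simp [Matrix.one_apply]
  | succ n ih =>
    intro x
    simp only [pow_succ, Matrix.mul_apply]
    rw [Finset.sum_comm]
    simp only [← Finset.mul_sum, h1, mul_one, ih]

theorem doeblin {Q : Matrix S S ℝ} (h0 : ∀ x y, 0 ≤ Q x y) (h1 : ∀ x, ∑ y, Q x y = 1)
    {m : ℕ} {δ : ℝ} (hδ : 0 < δ) (y0 : S) (hm : ∀ x, δ ≤ (Q ^ m) x y0)
    (v : S → ℝ) (hv : ∑ x, v x = 0) :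
    Tendsto (fun n : ℕ => ∑ y, |(v ᵥ* Q ^ n) y|) atTop (𝓝 0) := by
  have hmS : 0 < m ∨ m = 0 := by omega
  -- contraction over `m` steps
  have hsum : ∀ (w : S → ℝ) (n : ℕ), ∑ x, w x = 0 → ∑ y, (w ᵥ* Q ^ n) y = 0 := by
    intro w n hw
    simp only [Matrix.vecMul, dotProduct]
    rw [Finset.sum_comm]
    simp only [← Finset.mul_sum, pow_row h1, mul_one, hw]
  have contr : ∀ w : S → ℝ, ∑ x, w x = 0 →
      ∑ y, |(w ᵥ* Q ^ m) y| ≤ (1 - δ) * ∑ x, |w x| := by
    intro w hw
    calc ∑ y, |(w ᵥ* Q ^ m) y|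
        = ∑ y, |∑ x, w x * ((Q ^ m) x y - (if y = y0 then δ else 0))| := by
          apply Finset.sum_congr rfl
          intro y _
          congr 1
          simp only [mul_sub, Finset.sum_sub_distrib, ← Finset.sum_mul, hw, zero_mul, sub_zero]
          rfl
      _ ≤ ∑ y, ∑ x, |w x| * ((Q ^ m) x y - (if y = y0 then δ else 0)) := by
          apply Finset.sum_le_sum
          intro y _
          refine (Finset.abs_sum_le_sum_abs _ _).trans (Finset.sum_le_sum fun x _ => ?_)
          rw [abs_mul]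
          apply mul_le_mul_of_nonneg_left _ (abs_nonneg _)
          rw [abs_of_nonneg]
          split_ifs with h
          · subst h; linarith [hm x]
          · linarith [pow_nonneg' h0 m x y]
      _ = (1 - δ) * ∑ x, |w x| := by
          rw [Finset.sum_comm, Finset.mul_sum]
          apply Finset.sum_congr rfl
          intro x _
          rw [← Finset.mul_sum, Finset.sum_sub_distrib, pow_row h1]
          simp
          ring
  have hδ1 : δ ≤ 1 := by
    have h := hm y0
    have h2 : (Q ^ m) y0 y0 ≤ ∑ y, (Q ^ m) y0 y :=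
      Finset.single_le_sum (fun y _ => pow_nonneg' h0 m y0 y) (Finset.mem_univ y0)
    rw [pow_row h1] at h2
    linarith
  have hiter : ∀ k : ℕ, ∑ y, |(v ᵥ* Q ^ (k * m)) y| ≤ (1 - δ) ^ k * ∑ x, |v x| := by
    intro k
    induction k with
    | zero => simp
    | succ k ih =>
      have e : v ᵥ* Q ^ ((k + 1) * m) = (v ᵥ* Q ^ (k * m)) ᵥ* Q ^ m := by
        rw [Matrix.vecMul_vecMul, ← pow_add]
        congr 2
        ring
      rw [e]
      calc _ ≤ (1 - δ) * ∑ x, |(v ᵥ* Q ^ (k * m)) x| := contr _ (hsum v _ hv)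
        _ ≤ (1 - δ) * ((1 - δ) ^ k * ∑ x, |v x|) :=
            mul_le_mul_of_nonneg_left ih (by linarith)
        _ = _ := by ring
  have hanti : Antitone fun n : ℕ => ∑ y, |(v ᵥ* Q ^ n) y| := by
    apply antitone_nat_of_succ_le
    intro n
    have e : v ᵥ* Q ^ (n + 1) = (v ᵥ* Q ^ n) ᵥ* Q := by
      rw [Matrix.vecMul_vecMul, ← pow_succ]
    show ∑ y, |(v ᵥ* Q ^ (n + 1)) y| ≤ ∑ y, |(v ᵥ* Q ^ n) y|
    rw [e]
    exact l1_vecMul_le h0 (fun x => (h1 x).le) _
  have hgeo : Tendsto (fun k : ℕ => (1 - δ) ^ k * ∑ x, |v x|) atTop (𝓝 0) := by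
    have := (tendsto_pow_atTop_nhds_zero_of_lt_one (by linarith) (by linarith : 1 - δ < 1)).mul_const
      (∑ x, |v x|)
    simpa using this
  rw [Metric.tendsto_atTop] at hgeo ⊢
  intro ε hε
  obtain ⟨K, hK⟩ := hgeo ε hε
  refine ⟨K * m, fun n hn => ?_⟩
  have h2 := hK K le_rfl
  rw [Real.dist_eq, sub_zero] at h2 ⊢
  have h3 : 0 ≤ ∑ y, |(v ᵥ* Q ^ n) y| := Finset.sum_nonneg fun _ _ => abs_nonneg _
  rw [abs_of_nonneg h3]
  calc ∑ y, |(v ᵥ* Q ^ n) y| ≤ ∑ y, |(v ᵥ* Q ^ (K * m)) y| := hanti hn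
    _ ≤ (1 - δ) ^ K * ∑ x, |v x| := hiter K
    _ ≤ |(1 - δ) ^ K * ∑ x, (|v x|)| := le_abs_self _
    _ < ε := h2

end Doeblin

/-- Losing step of player `i`. -/
theorem P_lose {p : Fin 4 → ℝ} (hp : ∀ m, 0 ≤ p m ∧ p m ≤ 1) {c : ℝ}
    (hc : ∀ m, c ≤ 1 - p m) (x : Fin N → Bool) (i : Fin N) :
    (N : ℝ)⁻¹ * c ≤ P p x (Function.update x i false) := by
  rw [P_apply]
  have hN : (0 : ℝ) < (N : ℝ)⁻¹ := inv_pos.mpr cardPos
  by_cases h : x i = true
  · have e : Function.update x i false = flip x i := by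
      simp [flip, h]
    rw [e, if_neg (flip_ne x i), zero_add]
    apply mul_le_mul_of_nonneg_left _ hN.le
    calc c ≤ flipProb p x i := by
          unfold flipProb
          rw [if_pos h]
          exact hc _
      _ = if flip x i = flip x i then flipProb p x i else 0 := by simp
      _ ≤ ∑ j, if flip x i = flip x j then flipProb p x j else 0 := by
          refine Finset.single_le_sum (f := fun j => if flip x i = flip x j then flipProb p x j
            else 0) (fun j _ => ?_) (Finset.mem_univ i)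
          split_ifs
          · exact flipProb_nonneg hp x j
          · exact le_rfl
  · have h' : x i = false := by simpa using h
    have e : Function.update x i false = x := by
      rw [← h']; simp
    rw [e, if_pos rfl]
    have h1 : 0 ≤ (N : ℝ)⁻¹ * ∑ j, (if x = flip x j then flipProb p x j else 0) := by
      apply mul_nonneg hN.le
      apply Finset.sum_nonneg
      intro j _
      split_ifs
      · exact flipProb_nonneg hp x j
      · exact le_rfl
    have h2 : ∑ j, flipProb p x j + c ≤ N := by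
      have h3 : ∑ j, flipProb p x j = flipProb p x i + ∑ j ∈ Finset.univ.erase i, flipProb p x j :=
        (Finset.add_sum_erase _ _ (Finset.mem_univ i)).symm
      have h4 : ∑ j ∈ Finset.univ.erase i, flipProb p x j ≤ ((N : ℝ) - 1) := by
        calc ∑ j ∈ Finset.univ.erase i, flipProb p x j
            ≤ ∑ _j ∈ Finset.univ.erase i, (1 : ℝ) :=
              Finset.sum_le_sum fun j _ => flipProb_le_one hp x j
          _ = ((N : ℝ) - 1) := by
              rw [Finset.sum_const, Finset.card_erase_of_mem (Finset.mem_univ i)]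
              have : 1 ≤ N := Nat.pos_of_ne_zero (NeZero.ne N)
              simp [Nat.cast_sub this]
      have h5 : flipProb p x i = p (nb x i) := by
        unfold flipProb
        rw [if_neg h]
      have h6 := hc (nb x i)
      rw [h3, h5]
      linarith
    have h7 : (N : ℝ)⁻¹ * (∑ j, flipProb p x j + c) ≤ 1 := by
      rw [inv_mul_le_iff₀ cardPos]
      simpa using h2
    rw [mul_add] at h7
    linarith

theorem pow_path {Q : Matrix (Fin N → Bool) (Fin N → Bool) ℝ} (h0 : ∀ x y, 0 ≤ Q x y) (n : ℕ)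
    (x y z : Fin N → Bool) : (Q ^ n) x y * Q y z ≤ (Q ^ (n + 1)) x z := by
  rw [pow_succ, Matrix.mul_apply]
  exact Finset.single_le_sum (f := fun y => (Q ^ n) x y * Q y z)
    (fun y _ => mul_nonneg (pow_nonneg' h0 n x y) (h0 y z)) (Finset.mem_univ y)

/-- From every state the all-zero state can be reached in `N` steps. -/
theorem reach {p : Fin 4 → ℝ} (hp : ∀ m, 0 ≤ p m ∧ p m ≤ 1) {c : ℝ} (hc0 : 0 ≤ c)
    (hc : ∀ m, c ≤ 1 - p m) (x : Fin N → Bool) (k : ℕ) (hk : k ≤ N) :
    ((N : ℝ)⁻¹ * c) ^ k ≤ ((P p) ^ k) x (fun i => if i.val < k then false else x i) := by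
  induction k with
  | zero => simp
  | succ k ih =>
    have hkN : k < N := hk
    have ih' := ih hkN.le
    set y : Fin N → Bool := fun i => if i.val < k then false else x i with hy
    have e : (fun i : Fin N => if i.val < k + 1 then false else x i) =
        Function.update y ⟨k, hkN⟩ false := by
      funext i
      by_cases hi : i = ⟨k, hkN⟩
      · subst hi; simp
      · rw [Function.update_of_ne hi]
        have hne : i.val ≠ k := fun h => hi (Fin.ext h)
        simp only [hy]
        by_cases h1 : i.val < k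
        · rw [if_pos h1, if_pos (by omega)]
        · rw [if_neg h1, if_neg (by omega)]
    rw [e]
    have hN : (0 : ℝ) < (N : ℝ)⁻¹ := inv_pos.mpr cardPos
    calc ((N : ℝ)⁻¹ * c) ^ (k + 1) = ((N : ℝ)⁻¹ * c) ^ k * ((N : ℝ)⁻¹ * c) := pow_succ _ _
      _ ≤ ((P p) ^ k) x y * P p y (Function.update y ⟨k, hkN⟩ false) := by
          apply mul_le_mul ih' (P_lose hp hc y _) (mul_nonneg hN.le hc0)
          exact pow_nonneg' (P_nonneg hp) k x y
      _ ≤ _ := pow_path (P_nonneg hp) k x y _

/-- Ergodicity of the chain when no coin always wins. -/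
theorem ergodicWith {p : Fin 4 → ℝ} (hp : ∀ m, 0 ≤ p m ∧ p m < 1) {π : (Fin N → Bool) → ℝ}
    (hπ : IsDist π) (hst : π ᵥ* P p = π) : ErgodicWith p π := by
  have hp' : ∀ m, 0 ≤ p m ∧ p m ≤ 1 := fun m => ⟨(hp m).1, (hp m).2.le⟩
  obtain ⟨c, hc0, hc⟩ : ∃ c : ℝ, 0 < c ∧ ∀ m, c ≤ 1 - p m := by
    refine ⟨min (min (1 - p 0) (1 - p 1)) (min (1 - p 2) (1 - p 3)), ?_, fun m => ?_⟩
    · rw [lt_min_iff, lt_min_iff, lt_min_iff]
      exact ⟨⟨by linarith [(hp 0).2], by linarith [(hp 1).2]⟩,
        ⟨by linarith [(hp 2).2], by linarith [(hp 3).2]⟩⟩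
    · fin_cases m
      · exact (min_le_left _ _).trans (min_le_left _ _)
      · exact (min_le_left _ _).trans (min_le_right _ _)
      · exact (min_le_right _ _).trans (min_le_left _ _)
      · exact (min_le_right _ _).trans (min_le_right _ _)
  have hN : (0 : ℝ) < (N : ℝ)⁻¹ := inv_pos.mpr cardPos
  have hreach : ∀ x : Fin N → Bool, ((N : ℝ)⁻¹ * c) ^ N ≤ ((P p) ^ N) x (fun _ => false) := by
    intro x
    have h := reach hp' hc0.le hc x N le_rfl
    have e : (fun i : Fin N => if i.val < N then false else x i) = fun _ => false := by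
      funext i; simp
    rwa [e] at h
  have key : ∀ ν : (Fin N → Bool) → ℝ, IsDist ν →
      ∀ x, Tendsto (fun n : ℕ => (ν ᵥ* (P p) ^ n) x) atTop (𝓝 (π x)) := by
    intro ν hν x
    have hz : ∑ y, (ν - π) y = 0 := by
      simp [Finset.sum_sub_distrib, hν.2, hπ.2]
    have h := doeblin (P_nonneg hp') (P_row p) (pow_pos (mul_pos hN hc0) N) (fun _ => false)
      hreach (ν - π) hz
    have hpi : ∀ n : ℕ, π ᵥ* (P p) ^ n = π := by
      intro n
      induction n with
      | zero => simp
      | succ n ih => rw [pow_succ, ← Matrix.vecMul_vecMul, ih, hst]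
    rw [tendsto_iff_dist_tendsto_zero]
    apply squeeze_zero (fun _ => dist_nonneg) (fun n => ?_) h
    rw [Real.dist_eq]
    have e : (ν ᵥ* (P p) ^ n) x - π x = ((ν - π) ᵥ* (P p) ^ n) x := by
      rw [Matrix.sub_vecMul, Pi.sub_apply, hpi n]
    rw [e]
    exact Finset.single_le_sum (f := fun y => |((ν - π) ᵥ* (P p) ^ n) y|)
      (fun y _ => abs_nonneg _) (Finset.mem_univ x)
  refine ⟨hπ, hst, fun π' hπ' hst' => ?_, key⟩
  funext x
  have h1 := key π' hπ' x
  have hpi : ∀ n : ℕ, π' ᵥ* (P p) ^ n = π' := by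
    intro n
    induction n with
    | zero => simp
    | succ n ih => rw [pow_succ, ← Matrix.vecMul_vecMul, ih, hst']
  simp only [hpi] at h1
  exact tendsto_nhds_unique tendsto_const_nhds h1

/-! ### The computation for `N = 4` -/

/-- Integer version of the flip probabilities, for parameters `a m / 20`. -/
def rate (a : Fin 4 → ℤ) (x : Fin 4 → Bool) (i : Fin 4) : ℤ :=
  if x i then 20 - a (nb x i) else a (nb x i)

/-- number of ones -/
def ones (x : Fin 4 → Bool) : ℕ := (Finset.univ.filter fun i => x i = true).card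

/-- Weights depending on the rotation class: `w0, w1, w2` (adjacent ones), `w2'` (opposite ones),
`w3, w4`. -/
def wt (w : Fin 6 → ℤ) (x : Fin 4 → Bool) : ℤ :=
  if ones x = 0 then w 0 else if ones x = 1 then w 1 else
  if ones x = 2 then (if x 0 = x 2 then w 3 else w 2) else if ones x = 3 then w 4 else w 5

theorem example_data (a : Fin 4 → ℤ) (w : Fin 6 → ℤ) (W T : ℤ)
    (ha : ∀ m, 0 < a m ∧ a m < 20) (hw : ∀ j, 0 ≤ w j) (hW : 0 < W)
    (hsum : ∑ x, wt w x = W)
    (hbal : ∀ y, ∑ i, wt w (flip y i) * rate a (flip y i) i = wt w y * ∑ i, rate a y i)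
    (hT : ∑ x, wt w x * ∑ i, (a (nb x i) - (20 - a (nb x i))) = T) :
    (∀ m, 0 < ((a m : ℤ) : ℝ) / 20 ∧ ((a m : ℤ) : ℝ) / 20 < 1) ∧
    ErgodicWith (N := 4) (fun m => (a m : ℝ) / 20) (fun x => (wt w x : ℝ) / W) ∧
    meanProfit (N := 4) (fun m => (a m : ℝ) / 20) (fun x => (wt w x : ℝ) / W) =
      (T : ℝ) / (80 * W) := by
  have hWr : (0 : ℝ) < W := by exact_mod_cast hW
  have hpos : ∀ m, 0 < ((a m : ℤ) : ℝ) / 20 ∧ ((a m : ℤ) : ℝ) / 20 < 1 := by
    intro m
    have h1 : (0 : ℝ) < (a m : ℝ) := by exact_mod_cast (ha m).1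
    have h2 : (a m : ℝ) < 20 := by exact_mod_cast (ha m).2
    constructor
    · positivity
    · rw [div_lt_one (by norm_num)]; exact h2
  have hrate : ∀ x i, flipProb (N := 4) (fun m => (a m : ℝ) / 20) x i = (rate a x i : ℝ) / 20 := by
    intro x i
    unfold flipProb rate
    split_ifs
    · push_cast; ring
    · rfl
  refine ⟨hpos, ?_, ?_⟩
  · apply ergodicWith (fun m => ⟨(hpos m).1.le, (hpos m).2⟩)
    · constructor
      · intro x
        apply div_nonneg _ hWr.le
        have : 0 ≤ wt w x := by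
          unfold wt
          split_ifs <;> apply hw
        exact_mod_cast this
      · rw [← Finset.sum_div]
        rw [div_eq_one_iff_eq hWr.ne']
        exact_mod_cast hsum
    · apply stationary_of_balance
      intro y
      simp only [hrate]
      have h := hbal y
      have h' : ∑ i, (wt w (flip y i) : ℝ) * (rate a (flip y i) i : ℝ) =
          (wt w y : ℝ) * ∑ i, (rate a y i : ℝ) := by exact_mod_cast h
      rw [← Finset.sum_div]
      have e : ∀ i, (wt w (flip y i) : ℝ) / W * ((rate a (flip y i) i : ℝ) / 20) =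
          ((wt w (flip y i) : ℝ) * (rate a (flip y i) i : ℝ)) / (W * 20) := by
        intro i; field_simp
      simp only [e]
      rw [← Finset.sum_div, h']
      field_simp
  · unfold meanProfit
    have h' : ∑ x, (wt w x : ℝ) * ∑ i, ((a (nb x i) : ℝ) - (20 - (a (nb x i) : ℝ))) = T := by
      exact_mod_cast hT
    rw [← h']
    have e : ∀ x : Fin 4 → Bool, (wt w x : ℝ) / W *
        ∑ i, ((a (nb x i) : ℝ) / 20 - (1 - (a (nb x i) : ℝ) / 20)) =
        ((wt w x : ℝ) * ∑ i, ((a (nb x i) : ℝ) - (20 - (a (nb x i) : ℝ)))) / (20 * W) := by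
      intro x
      rw [mul_div_assoc, mul_comm (20 : ℝ), ← div_div, div_mul_eq_mul_div, mul_div_assoc]
      rw [div_div, div_eq_mul_inv, div_eq_mul_inv]
      rw [Finset.sum_congr rfl (fun i _ => show ((a (nb x i) : ℝ) / 20 -
        (1 - (a (nb x i) : ℝ) / 20)) = ((a (nb x i) : ℝ) - (20 - (a (nb x i) : ℝ))) * 20⁻¹ by ring)]
      rw [← Finset.sum_mul]
      field_simp
    simp only [e]
    rw [← Finset.sum_div]
    push_cast
    field_simp
    ring

/-- `μ^N` is monotone in the variable `p_j`, on the parameter vectors for which the chain is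
ergodic. -/
def MonotoneIn (N : ℕ) [NeZero N] (j : Fin 4) : Prop :=
  ∀ (p p' : Fin 4 → ℝ) (π π' : (Fin N → Bool) → ℝ),
    (∀ m, 0 ≤ p m ∧ p m ≤ 1) → (∀ m, 0 ≤ p' m ∧ p' m ≤ 1) → (∀ m, m ≠ j → p' m = p m) →
    p j ≤ p' j → ErgodicWith p π → ErgodicWith p' π' → meanProfit p π ≤ meanProfit p' π'

/-- There is a decrease of `μ^N` in the direction `j` between two parameter vectors in the open
cube. -/
def Decrease (N : ℕ) [NeZero N] (j : Fin 4) : Prop :=
  ∃ (p p' : Fin 4 → ℝ) (π π' : (Fin N → Bool) → ℝ),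
    (∀ m, 0 < p m ∧ p m < 1) ∧ (∀ m, 0 < p' m ∧ p' m < 1) ∧ (∀ m, m ≠ j → p' m = p m) ∧
    p j < p' j ∧ ErgodicWith p π ∧ ErgodicWith p' π' ∧ meanProfit p' π' < meanProfit p π

theorem not_monotoneIn {N : ℕ} [NeZero N] {j : Fin 4} (h : Decrease N j) : ¬ MonotoneIn N j := by
  obtain ⟨p, p', π, π', h1, h2, h3, h4, h5, h6, h7⟩ := h
  intro hm
  exact absurd (hm p p' π π' (fun m => ⟨(h1 m).1.le, (h1 m).2.le⟩)
    (fun m => ⟨(h2 m).1.le, (h2 m).2.le⟩) h3 h4.le h5 h6) (not_le.mpr h7)

theorem decrease3 : Decrease 4 3 := by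
  obtain ⟨h1, h2, h3⟩ := example_data ![19, 1, 1, 1] ![76, 1444, 361, 16606, 304, 16] 41740
    (-187200) (by decide) (by decide) (by decide) (by decide +kernel) (by decide +kernel)
    (by decide +kernel)
  obtain ⟨k1, k2, k3⟩ := example_data ![19, 1, 1, 4] ![524, 9956, 4180, 50236, 3876, 969] 174013
    (-937200) (by decide) (by decide) (by decide) (by decide +kernel) (by decide +kernel)
    (by decide +kernel)
  refine ⟨_, _, _, _, h1, k1, ?_, ?_, h2, k2, ?_⟩
  · intro m hm
    fin_cases m <;> simp_all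
  · simp
    norm_num
  · rw [h3, k3]
    norm_num

theorem decrease0 : Decrease 4 0 := by
  obtain ⟨h1, h2, h3⟩ := example_data ![16, 19, 19, 1] ![969, 3876, 4180, 50236, 9956, 524] 174013
    937200 (by decide) (by decide) (by decide) (by decide +kernel) (by decide +kernel)
    (by decide +kernel)
  obtain ⟨k1, k2, k3⟩ := example_data ![19, 19, 19, 1] ![16, 304, 361, 16606, 1444, 76] 41740
    187200 (by decide) (by decide) (by decide) (by decide +kernel) (by decide +kernel)
    (by decide +kernel)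
  refine ⟨_, _, _, _, h1, k1, ?_, ?_, h2, k2, ?_⟩
  · intro m hm
    fin_cases m <;> simp_all
  · norm_num
  · rw [h3, k3]
    norm_num

/-- For `N = 4` the mean profit is not monotone in `p_0`, and not monotone in `p_3`; in both cases
it decreases between two parameter vectors of the open cube `(0,1)^4`. -/
theorem result : (¬ MonotoneIn 4 0 ∧ Decrease 4 0) ∧ (¬ MonotoneIn 4 3 ∧ Decrease 4 3) :=
  ⟨⟨not_monotoneIn decrease0, decrease0⟩, ⟨not_monotoneIn decrease3, decrease3⟩⟩

end Pool.Agent.Results.MP_313e16_pr.NotMonotone
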